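import Mathlib

/-!
Definitions for the complexity of recognising ABA-free hypergraphs.
-/

namespace Pool.Agent.Lib.Pa698a1

/-- A finite hypergraph given explicitly: vertices `0,…,n-1`, hyperedges `0,…,m-1`, and the
incidence matrix (`E h v = true` iff vertex `v` lies in hyperedge `h`). -/
structure HG where
  /-- number of vertices -/
  n : ℕ
  /-- number of hyperedges -/
  m : ℕ
  /-- incidence matrix -/
  E : Fin m → Fin n → Bool

/-- The bit string `1ⁿ 0 1ᵐ 0` followed by the rows of the incidence matrix. -/
def HG.encode (G : HG) : List Bool :=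
  List.replicate G.n true ++ false :: (List.replicate G.m true ++ false ::
    (List.ofFn fun h => List.ofFn fun v => G.E h v).flatten)

/-- The ordered pair of hyperedges `(H, L)` forms an ABA pattern under the ordering `π`
(`π v` is the position of the vertex `v`): there are vertices `h₁, l₁, h₂` in this order with
`h₁, h₂ ∈ H \ L` and `l₁ ∈ L \ H`. -/
def HG.FormsABA (G : HG) (π : Equiv.Perm (Fin G.n)) (H L : Fin G.m) : Prop :=
  ∃ h₁ l₁ h₂ : Fin G.n, π h₁ < π l₁ ∧ π l₁ < π h₂ ∧
    (G.E H h₁ = true ∧ G.E L h₁ = false) ∧ (G.E L l₁ = true ∧ G.E H l₁ = false) ∧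
    (G.E H h₂ = true ∧ G.E L h₂ = false)

/-- `G` is ABA-free: some ordering of its vertices has no pair of hyperedges forming an ABA
pattern. -/
def HG.ABAFree (G : HG) : Prop :=
  ∃ π : Equiv.Perm (Fin G.n), ∀ H L : Fin G.m, ¬ G.FormsABA π H L

/-- The language of the decision problem: all encodings of ABA-free hypergraphs. -/
def ABAFreeLanguage : Set (List Bool) := {w | ∃ G : HG, G.ABAFree ∧ G.encode = w}

open Classical in
/-- A language of bit strings is in P: its characteristic function, on all bit strings, is
computed by a Turing machine (Mathlib's `FinTM2`) in polynomial time. -/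
def InP (L : Set (List Bool)) : Prop :=
  Nonempty (Turing.TM2ComputableInPolyTime (id : List Bool → List Bool)
    Computability.encodeBool (fun w => decide (w ∈ L)))

end Pool.Agent.Lib.Pa698a1
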