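import Mathlib

/-!
Forcing classes of ordered pairs for ABA-free orderings, and the theorem that a finite
hypergraph has an ABA-free ordering iff no ordered pair is forced to agree with its reverse.
-/

namespace Pool.Agent.Lib.Pa698a1

open Relation

variable {V ι : Type*} (M : ι → V → Prop)

/-- The two ordered pairs are forced to be ordered in the same way by two hyperedges. -/
def Forces (p q : V × V) : Prop :=
  ∃ h l, (M h p.1 ∧ ¬ M l p.1) ∧ (M h q.1 ∧ ¬ M l q.1) ∧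
    (M l p.2 ∧ ¬ M h p.2) ∧ (M l q.2 ∧ ¬ M h q.2)

/-- Reflexive transitive closure of forcing. -/
def Eqv (p q : V × V) : Prop := ReflTransGen (Forces M) p q

/-- An ordered pair that is separated by some two hyperedges. -/
def Inc (x y : V) : Prop := Forces M (x, y) (x, y)

variable {M}

theorem Forces.symm {p q : V × V} (h : Forces M p q) : Forces M q p := by
  obtain ⟨h, l, a, b, c, d⟩ := h
  exact ⟨h, l, b, a, d, c⟩

theorem Forces.swap {p q : V × V} (h : Forces M p q) : Forces M p.swap q.swap := by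
  obtain ⟨h, l, a, b, c, d⟩ := h
  exact ⟨l, h, c, d, a, b⟩

theorem Forces.left {p q : V × V} (h : Forces M p q) : Forces M p p := by
  obtain ⟨h, l, a, b, c, d⟩ := h
  exact ⟨h, l, a, a, c, c⟩

theorem Eqv.refl (p : V × V) : Eqv M p p := ReflTransGen.refl

theorem Eqv.symm {p q : V × V} (h : Eqv M p q) : Eqv M q p := by
  induction h with
  | refl => exact ReflTransGen.refl
  | tail _ hbc ih => exact ReflTransGen.head hbc.symm ih

theorem Eqv.trans {p q r : V × V} (h : Eqv M p q) (h' : Eqv M q r) : Eqv M p r :=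
  ReflTransGen.trans h h'

theorem Eqv.swap {p q : V × V} (h : Eqv M p q) : Eqv M p.swap q.swap := by
  induction h with
  | refl => exact ReflTransGen.refl
  | tail _ hbc ih => exact ReflTransGen.tail ih hbc.swap

theorem Forces.eqv {p q : V × V} (h : Forces M p q) : Eqv M p q := ReflTransGen.single h

theorem Eqv.inc {x y x' y' : V} (h : Eqv M (x, y) (x', y')) (hi : Inc M x y) : Inc M x' y' := by
  have : ∀ q : V × V, Eqv M (x, y) q → Forces M q q := by
    intro q hq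
    induction hq with
    | refl => exact hi
    | tail _ hbc _ => exact hbc.symm.left
  exact this _ h

/-- A triple that is not protected from cyclic orientation. -/
structure NG (M : ι → V → Prop) (x y z : V) : Prop where
  xy : Inc M x y
  yz : Inc M y z
  zx : Inc M z x
  n1 : ¬ Eqv M (x, y) (z, y)
  n2 : ¬ Eqv M (y, z) (x, z)
  n3 : ¬ Eqv M (z, x) (y, x)

theorem NG.rot {x y z : V} (h : NG M x y z) : NG M y z x :=
  ⟨h.yz, h.zx, h.xy, h.n2, h.n3, h.n1⟩

theorem NG.step {x y z x' y' : V} (h : NG M x y z) (hf : Forces M (x, y) (x', y')) :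
    Eqv M (y', z) (y, z) ∧ Eqv M (z, x') (z, x) := by
  obtain ⟨H, L, ⟨xH, xL⟩, ⟨x'H, x'L⟩, ⟨yL, yH⟩, ⟨y'L, y'H⟩⟩ := hf
  simp only at xH xL x'H x'L yL yH y'L y'H
  have n3' : ¬ Eqv M (x, y) (x, z) := fun e => h.n3 (e.swap.symm)
  have e1 : Eqv M (x, y) (x', y) :=
    Forces.eqv ⟨H, L, ⟨xH, xL⟩, ⟨x'H, x'L⟩, ⟨yL, yH⟩, ⟨yL, yH⟩⟩
  have e2 : Eqv M (x, y) (x, y') :=
    Forces.eqv ⟨H, L, ⟨xH, xL⟩, ⟨xH, xL⟩, ⟨yL, yH⟩, ⟨y'L, y'H⟩⟩
  by_cases zH : M H z
  · by_cases zL : M L z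
    · -- both
      obtain ⟨K, K', ⟨yK, -⟩, -, ⟨-, zK⟩, -⟩ := h.yz
      simp only at yK zK
      have xK : M K x := by
        by_contra xK
        exact h.n1 (Forces.eqv ⟨H, K, ⟨xH, xK⟩, ⟨zH, zK⟩, ⟨yK, yH⟩, ⟨yK, yH⟩⟩)
      have x'K : M K x' := by
        by_contra x'K
        exact h.n1 (e1.trans (Forces.eqv ⟨H, K, ⟨x'H, x'K⟩, ⟨zH, zK⟩, ⟨yK, yH⟩, ⟨yK, yH⟩⟩))
      have y'K : M K y' := by
        by_contra y'K
        exact n3' (e2.trans (Forces.eqv ⟨K, L, ⟨xK, xL⟩, ⟨xK, xL⟩, ⟨y'L, y'K⟩, ⟨zL, zK⟩⟩))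
      refine ⟨Forces.eqv ⟨K, H, ⟨y'K, y'H⟩, ⟨yK, yH⟩, ⟨zH, zK⟩, ⟨zH, zK⟩⟩,
        Forces.eqv ⟨L, K, ⟨zL, zK⟩, ⟨zL, zK⟩, ⟨x'K, x'L⟩, ⟨xK, xL⟩⟩⟩
    · exact absurd (Forces.eqv ⟨H, L, ⟨xH, xL⟩, ⟨zH, zL⟩, ⟨yL, yH⟩, ⟨yL, yH⟩⟩) h.n1
  · by_cases zL : M L z
    · exact absurd (Forces.eqv ⟨H, L, ⟨xH, xL⟩, ⟨xH, xL⟩, ⟨yL, yH⟩, ⟨zL, zH⟩⟩) n3'
    · -- neither
      obtain ⟨K', K, ⟨-, yK⟩, -, ⟨zK, -⟩, -⟩ := h.yz
      simp only at yK zK
      have xK : ¬ M K x := by
        intro xK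
        exact h.n1 (Forces.eqv ⟨K, L, ⟨xK, xL⟩, ⟨zK, zL⟩, ⟨yL, yK⟩, ⟨yL, yK⟩⟩)
      have x'K : ¬ M K x' := by
        intro x'K
        exact h.n1 (e1.trans (Forces.eqv ⟨K, L, ⟨x'K, x'L⟩, ⟨zK, zL⟩, ⟨yL, yK⟩, ⟨yL, yK⟩⟩))
      have y'K : ¬ M K y' := by
        intro y'K
        exact n3' (e2.trans (Forces.eqv ⟨H, K, ⟨xH, xK⟩, ⟨xH, xK⟩, ⟨y'K, y'H⟩, ⟨zK, zH⟩⟩))
      refine ⟨Forces.eqv ⟨L, K, ⟨y'L, y'K⟩, ⟨yL, yK⟩, ⟨zK, zL⟩, ⟨zK, zL⟩⟩,
        Forces.eqv ⟨K, H, ⟨zK, zH⟩, ⟨zK, zH⟩, ⟨x'H, x'K⟩, ⟨xH, xK⟩⟩⟩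

theorem NG.congr {x y z x' y' : V} (h : NG M x y z) (e : Eqv M (x, y) (x', y'))
    (e1 : Eqv M (y', z) (y, z)) (e2 : Eqv M (z, x') (z, x)) : NG M x' y' z where
  xy := e.inc h.xy
  yz := e1.symm.inc h.yz
  zx := e2.symm.inc h.zx
  n1 := fun f => h.n1 ((e.trans f).trans (e1.swap))
  n2 := fun f => h.n2 ((e1.symm.trans f).trans (e2.swap))
  n3 := fun f => h.n3 ((e2.symm.trans f).trans (e.symm.swap))

theorem NG.move {x y z : V} (h : NG M x y z) {q : V × V} (e : Eqv M (x, y) q) :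
    Eqv M (q.2, z) (y, z) ∧ Eqv M (z, q.1) (z, x) ∧ NG M q.1 q.2 z := by
  induction e with
  | refl => exact ⟨Eqv.refl _, Eqv.refl _, h⟩
  | @tail b c _ hbc ih =>
    obtain ⟨i1, i2, i3⟩ := ih
    obtain ⟨j1, j2⟩ := i3.step (x' := c.1) (y' := c.2) hbc
    exact ⟨j1.trans i1, j2.trans i2, i3.congr (Forces.eqv hbc) j1 j2⟩

section order

variable [LinearOrder V]

/-- `p` is lexicographically at most `q`. -/
def Lex' (p q : V × V) : Prop := toLex p ≤ toLex q

/-- the orientation: the lexicographically least pair of the class (up to reversal) agrees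
with `(x,y)`. -/
def Ori (M : ι → V → Prop) (x y : V) : Prop :=
  Inc M x y ∧ ∃ m : V × V, Eqv M (x, y) m ∧
    ∀ q, (Eqv M (x, y) q ∨ Eqv M (y, x) q) → toLex m ≤ toLex q

variable (hC : ∀ x y, Inc M x y → ¬ Eqv M (x, y) (y, x))

theorem Ori.congr {x y x' y' : V} (h : Ori M x y) (e : Eqv M (x, y) (x', y')) : Ori M x' y' := by
  obtain ⟨hi, m, hm, hmin⟩ := h
  refine ⟨e.inc hi, m, e.symm.trans hm, fun q hq => hmin q ?_⟩
  rcases hq with hq | hq
  · exact Or.inl (e.trans hq)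
  · exact Or.inr (e.swap.trans hq)

include hC in
theorem Ori.asymm {x y : V} (h : Ori M x y) : ¬ Ori M y x := by
  rintro ⟨hi', m', hm', hmin'⟩
  obtain ⟨hi, m, hm, hmin⟩ := h
  have h1 := hmin m' (Or.inr hm')
  have h2 := hmin' m (Or.inr hm)
  have : m = m' := by
    have := le_antisymm h1 h2
    exact toLex.injective this
  subst this
  exact hC x y hi (hm.trans hm'.symm)

theorem Ori.total [Finite V] {x y : V} (h : Inc M x y) : Ori M x y ∨ Ori M y x := by
  classical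
  have hfin : ({q : V × V | Eqv M (x, y) q ∨ Eqv M (y, x) q}).Finite := Set.toFinite _
  have hne : ({q : V × V | Eqv M (x, y) q ∨ Eqv M (y, x) q}).Nonempty :=
    ⟨(x, y), Or.inl (Eqv.refl _)⟩
  obtain ⟨m, hm, hmin⟩ := Set.exists_min_image _ (fun q => toLex q) hfin hne
  have hi' : Inc M y x := Forces.swap h
  rcases hm with hm | hm
  · exact Or.inl ⟨h, m, hm, fun q hq => hmin q hq⟩
  · exact Or.inr ⟨hi', m, hm, fun q hq => hmin q (Or.symm hq)⟩

include hC in
/-- Key case: the least pair among three classes is in the class of `(x,y)`. -/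
theorem cyc_aux {x y z : V} (hxy : Ori M x y) (hyz : Ori M y z) (hzx : Ori M z x)
    (m : V × V) (hm : Eqv M (x, y) m)
    (hm1 : ∀ q, (Eqv M (z, x) q ∨ Eqv M (x, z) q) → toLex m ≤ toLex q) : False := by
  have ng : NG M x y z := by
    refine ⟨hxy.1, hyz.1, hzx.1, fun e => ?_, fun e => ?_, fun e => ?_⟩
    · exact Ori.asymm hC hyz (hxy.congr e)
    · exact Ori.asymm hC hzx (hyz.congr e)
    · exact Ori.asymm hC hxy (hzx.congr e)
  obtain ⟨e1, e2, ng'⟩ := ng.move hm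
  -- replace `x,y` by `m`
  obtain ⟨_, m', hm', hmin'⟩ := hzx
  have hle : toLex m' ≤ toLex (m.1, z) := hmin' _ (Or.inr e2.symm.swap)
  have hge : toLex m ≤ toLex m' := hm1 _ (Or.inl hm')
  have hu : m'.1 = m.1 := by
    rw [Prod.Lex.toLex_le_toLex] at hle hge
    apply le_antisymm
    · rcases hle with h | h
      · exact h.le
      · exact h.1.le
    · rcases hge with h | h
      · exact h.le
      · exact h.1.le
  -- `(z, m.1) ≡ (m.1, m'.2)`
  have e3 : Eqv M (z, m.1) m' := e2.trans hm'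
  obtain ⟨-, f2, -⟩ := ng'.rot.rot.move e3
  rw [hu] at f2
  exact ng'.n1 (f2.swap)

include hC in
theorem no_cyc {x y z : V} (hxy : Ori M x y) (hyz : Ori M y z) (hzx : Ori M z x) : False := by
  obtain ⟨_, m1, hm1, hmin1⟩ := id hxy
  obtain ⟨_, m2, hm2, hmin2⟩ := id hyz
  obtain ⟨_, m3, hm3, hmin3⟩ := id hzx
  rcases le_total (toLex m1) (toLex m2) with h12 | h12
  · rcases le_total (toLex m1) (toLex m3) with h13 | h13
    · exact cyc_aux hC hxy hyz hzx m1 hm1 (fun q hq => h13.trans (hmin3 q hq))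
    · exact cyc_aux hC hzx hxy hyz m3 hm3
        (fun q hq => (h13.trans h12).trans (hmin2 q hq))
  · rcases le_total (toLex m2) (toLex m3) with h23 | h23
    · exact cyc_aux hC hyz hzx hxy m2 hm2 (fun q hq => h12.trans (hmin1 q hq))
    · exact cyc_aux hC hzx hxy hyz m3 hm3 (fun q hq => h23.trans (hmin2 q hq))

include hC in
theorem Ori.trans [Finite V] {x y z : V} (hxy : Ori M x y) (hyz : Ori M y z) : Ori M x z := by
  by_cases hi : Inc M x z
  · rcases Ori.total hi with h | h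
    · exact h
    · exact (no_cyc hC hxy hyz h).elim
  · exfalso
    obtain ⟨H, L, ⟨xH, xL⟩, -, ⟨yL, yH⟩, -⟩ := hxy.1
    obtain ⟨H', L', ⟨yH', yL'⟩, -, ⟨zL', zH'⟩, -⟩ := hyz.1
    simp only at xH xL yL yH yH' yL' zL' zH'
    have key : Eqv M (x, y) (z, y) := by
      by_cases h1 : ∃ A, M A x ∧ ¬ M A z
      · obtain ⟨A, hA1, hA2⟩ := h1
        have h2 : ∀ B, M B z → M B x := by
          intro B hB
          by_contra hBx
          exact hi ⟨A, B, ⟨hA1, hBx⟩, ⟨hA1, hBx⟩, ⟨hB, hA2⟩, ⟨hB, hA2⟩⟩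
        have xL' := h2 _ zL'
        have zL : ¬ M L z := fun h => xL (h2 _ h)
        exact Forces.eqv ⟨L', L, ⟨xL', xL⟩, ⟨zL', zL⟩, ⟨yL, yL'⟩, ⟨yL, yL'⟩⟩
      · push_neg at h1
        have zH := h1 _ xH
        have xH' : ¬ M H' x := fun h => zH' (h1 _ h)
        exact Forces.eqv ⟨H, H', ⟨xH, xH'⟩, ⟨zH, zH'⟩, ⟨yH', yH⟩, ⟨yH', yH⟩⟩
    exact Ori.asymm hC hyz (hxy.congr key)

end order

/-- The ordering `π` (an injective position function) is ABA-free for `M`. -/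
def ABAFreeOrd (M : ι → V → Prop) (π : V → ℕ) : Prop :=
  ¬ ∃ H L : ι, ∃ h₁ l₁ h₂ : V, π h₁ < π l₁ ∧ π l₁ < π h₂ ∧
    (M H h₁ ∧ ¬ M L h₁) ∧ (M L l₁ ∧ ¬ M H l₁) ∧ (M H h₂ ∧ ¬ M L h₂)

theorem exists_order [Finite V] (hC : ∀ x y, Inc M x y → ¬ Eqv M (x, y) (y, x)) :
    ∃ π : V → ℕ, Function.Injective π ∧ ABAFreeOrd M π := by
  classical
  haveI : Fintype V := Fintype.ofFinite V
  let e := Fintype.equivFin V
  letI : LinearOrder V := LinearOrder.lift' e e.injective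
  -- strict order `Ori`, extend to a linear order
  let r : V → V → Prop := fun x y => x = y ∨ Ori M x y
  haveI hr : IsPartialOrder V r :=
    { refl := fun x => Or.inl rfl
      trans := by
        rintro x y z (rfl | h) (rfl | h')
        · exact Or.inl rfl
        · exact Or.inr h'
        · exact Or.inr h
        · exact Or.inr (Ori.trans hC h h')
      antisymm := by
        rintro x y (rfl | h) (h' | h')
        · rfl
        · rfl
        · exact h'.symm
        · exact (Ori.asymm hC h h').elim }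
  obtain ⟨s, hs, hrs⟩ := extend_partialOrder r
  -- position function: number of elements strictly below
  let π : V → ℕ := fun v => (Finset.univ.filter (fun u => s u v ∧ u ≠ v)).card
  have hmono : ∀ u v, s u v → u ≠ v → π u < π v := by
    intro u v huv hne
    apply Finset.card_lt_card
    rw [Finset.ssubset_iff_of_subset]
    · refine ⟨u, ?_, ?_⟩
      · simp [huv, hne]
      · simp
    · intro w hw
      simp only [Finset.mem_filter, Finset.mem_univ, true_and] at hw ⊢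
      refine ⟨hs.trans _ _ _ hw.1 huv, ?_⟩
      rintro rfl
      exact hne (hs.antisymm _ _ huv hw.1)
  have hinj : Function.Injective π := by
    intro u v huv
    by_contra hne
    rcases hs.total u v with h | h
    · exact absurd huv (hmono u v h hne).ne
    · exact absurd huv.symm (hmono v u h (Ne.symm hne)).ne
  refine ⟨π, hinj, ?_⟩
  rintro ⟨H, L, h₁, l₁, h₂, hlt1, hlt2, a, b, c⟩
  have hi : Inc M h₁ l₁ := ⟨H, L, a, a, b, b⟩
  have hi2 : Inc M h₂ l₁ := ⟨H, L, c, c, b, b⟩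
  have e : Eqv M (h₁, l₁) (h₂, l₁) := Forces.eqv ⟨H, L, a, c, b, b⟩
  have ne1 : h₁ ≠ l₁ := by rintro rfl; exact lt_irrefl _ hlt1
  have ne2 : h₂ ≠ l₁ := by rintro rfl; exact lt_irrefl _ hlt2
  rcases Ori.total hi with h | h
  · have h2 := h.congr e
    have := hmono _ _ (hrs _ _ (Or.inr h2)) ne2
    omega
  · have := hmono _ _ (hrs _ _ (Or.inr h)) (Ne.symm ne1)
    omega

theorem no_order {π : V → ℕ} (hinj : Function.Injective π) (h : ABAFreeOrd M π) :
    ∀ x y, Inc M x y → ¬ Eqv M (x, y) (y, x) := by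
  have step : ∀ p q : V × V, Forces M p q → π p.1 < π p.2 → π q.1 < π q.2 := by
    rintro ⟨x, y⟩ ⟨x', y'⟩ ⟨H, L, a, b, c, d⟩ hlt
    simp only at a b c d hlt ⊢
    by_contra hge
    have hne : π x' ≠ π y' := by
      intro he
      have := hinj he
      subst this
      exact d.2 b.1
    have hlt' : π y' < π x' := by omega
    have hne2 : π x ≠ π y' := by
      intro he
      have := hinj he
      subst this
      exact d.2 a.1
    rcases lt_or_gt_of_ne hne2 with h1 | h1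
    · exact h ⟨H, L, x, y', x', h1, hlt', a, d, b⟩
    · exact h ⟨L, H, y', x, y, h1, hlt, d, a, c⟩
  have steps : ∀ p q : V × V, Eqv M p q → π p.1 < π p.2 → π q.1 < π q.2 := by
    intro p q hpq hlt
    induction hpq with
    | refl => exact hlt
    | tail _ hbc ih => exact step _ _ hbc ih
  intro x y hi e
  have hne : π x ≠ π y := by
    intro he
    have := hinj he
    subst this
    obtain ⟨H, L, a, b, c, d⟩ := hi
    exact c.2 a.1
  rcases lt_or_gt_of_ne hne with h1 | h1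
  · have := steps _ _ e h1
    simp only at this
    omega
  · have := steps _ _ e.symm h1
    simp only at this
    omega

/-- Characterisation of hypergraphs with an ABA-free ordering. -/
theorem exists_ABAFreeOrd_iff [Finite V] :
    (∃ π : V → ℕ, Function.Injective π ∧ ABAFreeOrd M π) ↔
      ∀ x y, Inc M x y → ¬ Eqv M (x, y) (y, x) :=
  ⟨fun ⟨_, h1, h2⟩ => no_order h1 h2, exists_order⟩

end Pool.Agent.Lib.Pa698a1
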