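import Pool.Agent.Lib.PolyTime.Comb
import Pool.Agent.Lib.Pa698a1.Gallai

/-!
The polynomial-time algorithm for ABA-freeness on incidence-matrix strings and its correctness.
-/

namespace Pool.Agent.Lib.Pa698a1

open Pool.Agent.Lib.PolyTime

/-! ### Helper closure lemmas for one more unary variable -/

section helpers

variable {α : Type*} {D : α → Prop} {ctx : List (α → List Bool)}

theorem up {t : α → List Bool} {n : α → ℕ} (h : PolyC D ctx t) :
    PolyC (fun p : α × ℕ => D p.1 ∧ p.2 < n p.1) (PolyTime.lift ctx ++ [fun p => un p.2])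
      (fun p => t p.1) := (PolyC.lift h (fun _ hp => hp.1)).weakenRight _

theorem upN {t : α → ℕ} {n : α → ℕ} (h : PolyN D ctx t) :
    PolyN (fun p : α × ℕ => D p.1 ∧ p.2 < n p.1) (PolyTime.lift ctx ++ [fun p => un p.2])
      (fun p => t p.1) := up h

theorem last {n : α → ℕ} :
    PolyN (fun p : α × ℕ => D p.1 ∧ p.2 < n p.1) (PolyTime.lift ctx ++ [fun p => un p.2])
      (fun p => p.2) := PolyC.var (by simp)

end helpers

/-! ### The string functions -/

/-- number of vertices read off the string -/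
def nOf (w : List Bool) : ℕ := (w.takeWhile id).length

/-- number of hyperedges read off the string -/
def mOf (w : List Bool) : ℕ := ((afterTrue w).takeWhile id).length

/-- incidence bits read off the string -/
def restOf (w : List Bool) : List Bool := afterTrue (afterTrue w)

/-- incidence entry -/
def inc (w : List Bool) (h v : ℕ) : Bool := (restOf w).getD (h * nOf w + v) false

/-- the forcing relation as a Boolean -/
def forcesB (w : List Bool) (x y x' y' : ℕ) : Bool :=
  decide (∃ h < mOf w, decide (∃ l < mOf w,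
    (((inc w h x && !inc w l x) && (inc w h x' && !inc w l x')) &&
      ((inc w l y && !inc w h y) && (inc w l y' && !inc w h y'))) = true) = true)

/-- square table of a binary Boolean function -/
def table (n : ℕ) (f : ℕ → ℕ → Bool) : List Bool :=
  (List.range n).flatMap (fun u => (List.range n).map (fun v => f u v))

/-- initial table -/
def initT (w : List Bool) (x y : ℕ) : List Bool :=
  table (nOf w) (fun u v => decide (u = x) && decide (v = y))

/-- one round of propagation -/
def stepT (w : List Bool) (T : List Bool) : List Bool :=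
  table (nOf w) (fun u v => T.getD (u * nOf w + v) false ||
    decide (∃ u' < nOf w, decide (∃ v' < nOf w,
      (T.getD (u' * nOf w + v') false && forcesB w u' v' u v) = true) = true))

/-- table after `k` rounds -/
def iterT (w : List Bool) (x y : ℕ) (k : ℕ) : List Bool := (stepT w)^[k] (initT w x y)

/-- the decision procedure -/
def abaB (w : List Bool) : Bool :=
  decide (w.length = nOf w + mOf w + 2 + mOf w * nOf w) &&
  !decide (∃ x < nOf w, decide (∃ y < nOf w,
    (forcesB w x y x y && (iterT w x y (nOf w * nOf w)).getD (y * nOf w + x) false) = true)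
      = true)

/-! ### Polynomial-time computability -/

section poly

variable {α : Type*} {D : α → Prop} {ctx : List (α → List Bool)}

theorem poly_nOf {w : α → List Bool} (hw : PolyC D ctx w) : PolyN D ctx (fun a => nOf (w a)) :=
  PolyN.length hw.takeTrue

theorem poly_mOf {w : α → List Bool} (hw : PolyC D ctx w) : PolyN D ctx (fun a => mOf (w a)) :=
  PolyN.length hw.afterTrue.takeTrue

theorem poly_restOf {w : α → List Bool} (hw : PolyC D ctx w) :
    PolyC D ctx (fun a => restOf (w a)) := hw.afterTrue.afterTrue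

theorem poly_inc {w : α → List Bool} {h v : α → ℕ} (hw : PolyC D ctx w) (hh : PolyN D ctx h)
    (hv : PolyN D ctx v) : PolyB D ctx (fun a => inc (w a) (h a) (v a)) :=
  PolyB.getD (poly_restOf hw) ((hh.mul (poly_nOf hw)).add hv)

theorem poly_forcesB {w : α → List Bool} {x y x' y' : α → ℕ} (hw : PolyC D ctx w)
    (hx : PolyN D ctx x) (hy : PolyN D ctx y) (hx' : PolyN D ctx x') (hy' : PolyN D ctx y') :
    PolyB D ctx (fun a => forcesB (w a) (x a) (y a) (x' a) (y' a)) := by
  unfold forcesB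
  refine PolyB.exists_lt (φ := fun p : α × ℕ => decide (∃ l < mOf (w p.1),
    (((inc (w p.1) p.2 (x p.1) && !inc (w p.1) l (x p.1)) &&
      (inc (w p.1) p.2 (x' p.1) && !inc (w p.1) l (x' p.1))) &&
      ((inc (w p.1) l (y p.1) && !inc (w p.1) p.2 (y p.1)) &&
      (inc (w p.1) l (y' p.1) && !inc (w p.1) p.2 (y' p.1)))) = true)) (poly_mOf hw) ?_
  refine PolyB.exists_lt (φ := fun q : (α × ℕ) × ℕ =>
    (((inc (w q.1.1) q.1.2 (x q.1.1) && !inc (w q.1.1) q.2 (x q.1.1)) &&
      (inc (w q.1.1) q.1.2 (x' q.1.1) && !inc (w q.1.1) q.2 (x' q.1.1))) &&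
      ((inc (w q.1.1) q.2 (y q.1.1) && !inc (w q.1.1) q.1.2 (y q.1.1)) &&
      (inc (w q.1.1) q.2 (y' q.1.1) && !inc (w q.1.1) q.1.2 (y' q.1.1)))))
    (upN (n := fun a => mOf (w a)) (poly_mOf hw)) ?_
  have W := up (n := fun p : α × ℕ => mOf (w p.1)) (up (n := fun a => mOf (w a)) hw)
  have X := upN (n := fun p : α × ℕ => mOf (w p.1)) (upN (n := fun a => mOf (w a)) hx)
  have Y := upN (n := fun p : α × ℕ => mOf (w p.1)) (upN (n := fun a => mOf (w a)) hy)
  have X' := upN (n := fun p : α × ℕ => mOf (w p.1)) (upN (n := fun a => mOf (w a)) hx')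
  have Y' := upN (n := fun p : α × ℕ => mOf (w p.1)) (upN (n := fun a => mOf (w a)) hy')
  have H := upN (n := fun p : α × ℕ => mOf (w p.1))
    (last (D := D) (ctx := ctx) (n := fun a => mOf (w a)))
  have L := last (D := fun p : α × ℕ => D p.1 ∧ p.2 < mOf (w p.1))
    (ctx := PolyTime.lift ctx ++ [fun p : α × ℕ => un p.2])
    (n := fun p : α × ℕ => mOf (w p.1))
  exact (((poly_inc W H X).and (poly_inc W L X).not).and
    ((poly_inc W H X').and (poly_inc W L X').not)).and
    (((poly_inc W L Y).and (poly_inc W H Y).not).and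
    ((poly_inc W L Y').and (poly_inc W H Y').not))

theorem poly_table {n : α → ℕ} {f : (α × ℕ) × ℕ → Bool} (hn : PolyN D ctx n)
    (hf : PolyB (fun q : (α × ℕ) × ℕ => (D q.1.1 ∧ q.1.2 < n q.1.1) ∧ q.2 < n q.1.1)
      (PolyTime.lift (PolyTime.lift ctx ++ [fun p : α × ℕ => un p.2]) ++ [fun q => un q.2]) f) :
    PolyC D ctx (fun a => table (n a) (fun u v => f ((a, u), v))) := by
  unfold table
  refine PolyC.flatMap_range (t := fun p : α × ℕ =>
    (List.range (n p.1)).map (fun v => f (p, v))) hn ?_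
  exact PolyC.map_range (φ := f) (upN hn) hf

theorem poly_initT {w : α → List Bool} {x y : α → ℕ} (hw : PolyC D ctx w)
    (hx : PolyN D ctx x) (hy : PolyN D ctx y) :
    PolyC D ctx (fun a => initT (w a) (x a) (y a)) := by
  unfold initT
  refine poly_table (f := fun q : (α × ℕ) × ℕ =>
    decide (q.1.2 = x q.1.1) && decide (q.2 = y q.1.1)) (poly_nOf hw) ?_
  have X := upN (n := fun p : α × ℕ => nOf (w p.1)) (upN (n := fun a => nOf (w a)) hx)
  have Y := upN (n := fun p : α × ℕ => nOf (w p.1)) (upN (n := fun a => nOf (w a)) hy)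
  have U := upN (n := fun p : α × ℕ => nOf (w p.1))
    (last (D := D) (ctx := ctx) (n := fun a => nOf (w a)))
  have V := last (D := fun p : α × ℕ => D p.1 ∧ p.2 < nOf (w p.1))
    (ctx := PolyTime.lift ctx ++ [fun p : α × ℕ => un p.2])
    (n := fun p : α × ℕ => nOf (w p.1))
  exact (PolyB.natEq U X).and (PolyB.natEq V Y)

theorem poly_stepT {w T : α → List Bool} (hw : PolyC D ctx w) (hT : PolyC D ctx T) :
    PolyC D ctx (fun a => stepT (w a) (T a)) := by
  unfold stepT
  refine poly_table (f := fun q : (α × ℕ) × ℕ =>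
    (T q.1.1).getD (q.1.2 * nOf (w q.1.1) + q.2) false ||
    decide (∃ u' < nOf (w q.1.1), decide (∃ v' < nOf (w q.1.1),
      ((T q.1.1).getD (u' * nOf (w q.1.1) + v') false && forcesB (w q.1.1) u' v' q.1.2 q.2)
        = true) = true)) (poly_nOf hw) ?_
  have W := up (n := fun p : α × ℕ => nOf (w p.1)) (up (n := fun a => nOf (w a)) hw)
  have TT := up (n := fun p : α × ℕ => nOf (w p.1)) (up (n := fun a => nOf (w a)) hT)
  have U := upN (n := fun p : α × ℕ => nOf (w p.1))
    (last (D := D) (ctx := ctx) (n := fun a => nOf (w a)))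
  have V := last (D := fun p : α × ℕ => D p.1 ∧ p.2 < nOf (w p.1))
    (ctx := PolyTime.lift ctx ++ [fun p : α × ℕ => un p.2])
    (n := fun p : α × ℕ => nOf (w p.1))
  refine PolyB.or (PolyB.getD TT ((U.mul (poly_nOf W)).add V)) ?_
  refine PolyB.exists_lt (φ := fun r : ((α × ℕ) × ℕ) × ℕ =>
    decide (∃ v' < nOf (w r.1.1.1),
      ((T r.1.1.1).getD (r.2 * nOf (w r.1.1.1) + v') false &&
        forcesB (w r.1.1.1) r.2 v' r.1.1.2 r.1.2) = true)) (poly_nOf W) ?_
  have W1 := up (n := fun q : (α × ℕ) × ℕ => nOf (w q.1.1)) W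
  refine PolyB.exists_lt (φ := fun s : (((α × ℕ) × ℕ) × ℕ) × ℕ =>
      ((T s.1.1.1.1).getD (s.1.2 * nOf (w s.1.1.1.1) + s.2) false &&
        forcesB (w s.1.1.1.1) s.1.2 s.2 s.1.1.1.2 s.1.1.2)) (poly_nOf W1) ?_
  have W2 := up (n := fun r : ((α × ℕ) × ℕ) × ℕ => nOf (w r.1.1.1)) W1
  have T2 := up (n := fun r : ((α × ℕ) × ℕ) × ℕ => nOf (w r.1.1.1))
    (up (n := fun q : (α × ℕ) × ℕ => nOf (w q.1.1)) TT)
  have U2 := upN (n := fun r : ((α × ℕ) × ℕ) × ℕ => nOf (w r.1.1.1))
    (upN (n := fun q : (α × ℕ) × ℕ => nOf (w q.1.1)) U)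
  have V2 := upN (n := fun r : ((α × ℕ) × ℕ) × ℕ => nOf (w r.1.1.1))
    (upN (n := fun q : (α × ℕ) × ℕ => nOf (w q.1.1)) V)
  have U' := upN (n := fun r : ((α × ℕ) × ℕ) × ℕ => nOf (w r.1.1.1))
    (last (D := fun q : (α × ℕ) × ℕ => (D q.1.1 ∧ q.1.2 < nOf (w q.1.1)) ∧ q.2 < nOf (w q.1.1))
    (ctx := PolyTime.lift (PolyTime.lift ctx ++ [fun p : α × ℕ => un p.2]) ++
      [fun p : (α × ℕ) × ℕ => un p.2])
    (n := fun q : (α × ℕ) × ℕ => nOf (w q.1.1)))
  have V' := last (D := fun r : ((α × ℕ) × ℕ) × ℕ =>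
      ((D r.1.1.1 ∧ r.1.1.2 < nOf (w r.1.1.1)) ∧ r.1.2 < nOf (w r.1.1.1)) ∧
        r.2 < nOf (w r.1.1.1))
    (ctx := PolyTime.lift (PolyTime.lift (PolyTime.lift ctx ++ [fun p : α × ℕ => un p.2]) ++
      [fun p : (α × ℕ) × ℕ => un p.2]) ++ [fun p : ((α × ℕ) × ℕ) × ℕ => un p.2])
    (n := fun r : ((α × ℕ) × ℕ) × ℕ => nOf (w r.1.1.1))
  exact (PolyB.getD T2 ((U'.mul (poly_nOf W2)).add V')).and (poly_forcesB W2 U' V' U2 V2)

theorem table_length (n : ℕ) (f : ℕ → ℕ → Bool) : (table n f).length = n * n := by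
  unfold table
  rw [List.length_flatMap]
  simp

theorem iterT_length (w : List Bool) (x y k : ℕ) : (iterT w x y k).length = nOf w * nOf w := by
  cases k with
  | zero => exact table_length _ _
  | succ k =>
    unfold iterT
    rw [Function.iterate_succ_apply']
    exact table_length _ _

theorem poly_iterT {w : α → List Bool} {x y k : α → ℕ} (hw : PolyC D ctx w)
    (hx : PolyN D ctx x) (hy : PolyN D ctx y) (hk : PolyN D ctx k) :
    PolyC D ctx (fun a => iterT (w a) (x a) (y a) (k a)) := by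
  obtain ⟨pn, hpn⟩ := PolyC.length_le (poly_nOf hw)
  refine PolyC.natRec (fun a k => iterT (w a) (x a) (y a) k) hk (poly_initT hw hx hy) ?_
    ⟨pn * pn, fun a ha k _ => ?_⟩
  · have h1 : PolyC (fun p : α × ℕ => D p.1 ∧ p.2 < k p.1)
        (PolyTime.lift ctx ++ [fun p => un p.2, fun p => iterT (w p.1) (x p.1) (y p.1) p.2])
        (fun p => iterT (w p.1) (x p.1) (y p.1) p.2) := PolyC.var (by simp)
    have h2 : PolyC (fun p : α × ℕ => D p.1 ∧ p.2 < k p.1)
        (PolyTime.lift ctx ++ [fun p => un p.2, fun p => iterT (w p.1) (x p.1) (y p.1) p.2])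
        (fun p => w p.1) := (PolyC.lift hw (fun _ hp => hp.1)).weakenRight _
    refine (poly_stepT h2 h1).congr (fun p _ => ?_)
    unfold iterT
    rw [Function.iterate_succ_apply']
  · rw [iterT_length]
    have := hpn a ha
    simp only [un_length] at this
    simp only [Polynomial.eval_mul]
    exact Nat.mul_le_mul this this

theorem poly_abaB {w : α → List Bool} (hw : PolyC D ctx w) :
    PolyB D ctx (fun a => abaB (w a)) := by
  unfold abaB
  have h1 : PolyB D ctx (fun a => decide ((w a).length =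
      nOf (w a) + mOf (w a) + 2 + mOf (w a) * nOf (w a))) :=
    PolyB.natEq (PolyN.length hw)
      ((((poly_nOf hw).add (poly_mOf hw)).succ.succ).add ((poly_mOf hw).mul (poly_nOf hw)))
  refine h1.and (PolyB.not ?_)
  refine PolyB.exists_lt (φ := fun p : α × ℕ => decide (∃ y < nOf (w p.1),
    (forcesB (w p.1) p.2 y p.2 y && (iterT (w p.1) p.2 y (nOf (w p.1) * nOf (w p.1))).getD
      (y * nOf (w p.1) + p.2) false) = true)) (poly_nOf hw) ?_
  refine PolyB.exists_lt (φ := fun q : (α × ℕ) × ℕ =>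
    (forcesB (w q.1.1) q.1.2 q.2 q.1.2 q.2 &&
      (iterT (w q.1.1) q.1.2 q.2 (nOf (w q.1.1) * nOf (w q.1.1))).getD
      (q.2 * nOf (w q.1.1) + q.1.2) false)) (upN (n := fun a => nOf (w a)) (poly_nOf hw)) ?_
  have W := up (n := fun p : α × ℕ => nOf (w p.1)) (up (n := fun a => nOf (w a)) hw)
  have X := upN (n := fun p : α × ℕ => nOf (w p.1))
    (last (D := D) (ctx := ctx) (n := fun a => nOf (w a)))
  have Y := last (D := fun p : α × ℕ => D p.1 ∧ p.2 < nOf (w p.1))
    (ctx := PolyTime.lift ctx ++ [fun p : α × ℕ => un p.2])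
    (n := fun p : α × ℕ => nOf (w p.1))
  exact (poly_forcesB W X Y X Y).and (PolyB.getD
    (poly_iterT W X Y ((poly_nOf W).mul (poly_nOf W))) ((Y.mul (poly_nOf W)).add X))

end poly

end Pool.Agent.Lib.Pa698a1
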