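import Pool.Agent.Lib.Pa698a1.Algo
import Pool.Agent.Lib.Pa698a1.Defs

/-!
Correctness of the decision procedure for ABA-freeness.
-/

namespace Pool.Agent.Lib.Pa698a1

open Pool.Agent.Lib.PolyTime

/-! ### Tables -/

theorem flatten_getD {n : ℕ} (L : List (List Bool)) (hL : ∀ r ∈ L, r.length = n) :
    ∀ (u v : ℕ), v < n → L.flatten.getD (u * n + v) false = (L.getD u []).getD v false := by
  induction L with
  | nil => intro u v _; simp
  | cons r L ih =>
    intro u v hv
    have hr : r.length = n := hL r (by simp)
    rcases u with _ | u
    · simp only [Nat.zero_mul, Nat.zero_add, List.flatten_cons, List.getD_cons_zero]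
      rw [List.getD_append _ _ _ _ (by omega)]
    · rw [List.flatten_cons, List.getD_append_right _ _ _ _ (by rw [hr]; nlinarith),
        List.getD_cons_succ, hr, ← ih (fun r hr => hL r (by simp [hr])) u v hv]
      congr 1
      rw [Nat.succ_mul]
      omega

/-- rectangular table -/
def rect (m n : ℕ) (f : ℕ → ℕ → Bool) : List Bool :=
  ((List.range m).map (fun h => (List.range n).map (fun v => f h v))).flatten

theorem rect_length (m n : ℕ) (f : ℕ → ℕ → Bool) : (rect m n f).length = m * n := by
  unfold rect
  rw [List.length_flatten, List.map_map]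
  simp [Function.comp_def]

theorem rect_getD {m n : ℕ} (f : ℕ → ℕ → Bool) {h v : ℕ} (hh : h < m) (hv : v < n) :
    (rect m n f).getD (h * n + v) false = f h v := by
  unfold rect
  rw [flatten_getD (n := n) _ _ _ _ hv]
  · simp [hh, hv]
  · intro r hr
    simp only [List.mem_map, List.mem_range] at hr
    obtain ⟨h, _, rfl⟩ := hr
    simp

theorem table_eq_rect (n : ℕ) (f : ℕ → ℕ → Bool) : table n f = rect n n f := by
  unfold table rect
  rw [List.flatMap_def]

theorem table_getD {n : ℕ} (f : ℕ → ℕ → Bool) {u v : ℕ} (hu : u < n) (hv : v < n) :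
    (table n f).getD (u * n + v) false = f u v := by
  rw [table_eq_rect, rect_getD f hu hv]

theorem rect_self {m n : ℕ} {l : List Bool} (hl : l.length = m * n) :
    rect m n (fun h v => l.getD (h * n + v) false) = l := by
  apply List.ext_getElem
  · rw [rect_length, hl]
  · intro i h1 h2
    have hn : 0 < n := by
      rcases Nat.eq_zero_or_pos n with h | h
      · subst h; simp only [Nat.mul_zero] at hl; omega
      · exact h
    have hi : i = (i / n) * n + i % n := by
      have := Nat.div_add_mod i n
      rw [Nat.mul_comm]; exact this.symm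
    have hin : i / n < m := by
      rw [Nat.div_lt_iff_lt_mul hn, ← hl]; exact h2
    have := rect_getD (m := m) (n := n) (fun h v => l.getD (h * n + v) false) hin
      (Nat.mod_lt i hn)
    rw [← hi] at this
    rw [List.getD_eq_getElem _ _ h1, List.getD_eq_getElem _ _ h2] at this
    exact this

/-! ### Hypergraphs -/

/-- incidence predicate -/
def HG.M (G : HG) : Fin G.m → Fin G.n → Prop := fun h v => G.E h v = true

theorem HG.bits_eq (G : HG) (f : ℕ → ℕ → Bool)
    (hf : ∀ (h : Fin G.m) (v : Fin G.n), f h v = G.E h v) :
    (List.ofFn fun h => List.ofFn fun v => G.E h v).flatten = rect G.m G.n f := by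
  unfold rect
  congr 1
  apply List.ext_getElem
  · simp
  · intro i h1 h2
    simp only [List.getElem_ofFn, List.getElem_map, List.getElem_range]
    apply List.ext_getElem
    · simp
    · intro j h3 h4
      simp only [List.getElem_ofFn, List.getElem_map, List.getElem_range]
      exact (hf _ _).symm

/-- total incidence function -/
def HG.tot (G : HG) (h v : ℕ) : Bool :=
  if hh : h < G.m ∧ v < G.n then G.E ⟨h, hh.1⟩ ⟨v, hh.2⟩ else false

theorem HG.encode_eq (G : HG) :
    G.encode = un G.n ++ false :: (un G.m ++ false :: rect G.m G.n G.tot) := by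
  unfold HG.encode un
  rw [HG.bits_eq G G.tot]
  intro h v
  simp [HG.tot]

theorem nOf_encode (G : HG) : nOf G.encode = G.n := by
  rw [HG.encode_eq, nOf, takeWhile_un, un_length]

theorem mOf_encode (G : HG) : mOf G.encode = G.m := by
  rw [HG.encode_eq, mOf, afterTrue_un, takeWhile_un, un_length]

theorem restOf_encode (G : HG) : restOf G.encode = rect G.m G.n G.tot := by
  rw [HG.encode_eq, restOf, afterTrue_un, afterTrue_un]

theorem inc_encode (G : HG) (h : Fin G.m) (v : Fin G.n) : inc G.encode h v = G.E h v := by
  unfold inc
  rw [nOf_encode, restOf_encode, rect_getD _ h.2 v.2]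
  simp [HG.tot]

theorem length_encode (G : HG) :
    G.encode.length = G.n + G.m + 2 + G.m * G.n := by
  rw [HG.encode_eq]
  simp only [List.length_append, un_length, List.length_cons, rect_length]
  omega

/-- strings passing the length test are encodings -/
theorem exists_encode {w : List Bool} (h : w.length = nOf w + mOf w + 2 + mOf w * nOf w) :
    ∃ G : HG, G.encode = w := by
  have key : ∀ l : List Bool, (l = un l.length ∧ l.takeWhile id = l) ∨
      l = un (l.takeWhile id).length ++ false :: afterTrue l := by
    intro l
    induction l with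
    | nil => left; simp
    | cons b l ih =>
      cases b with
      | false => right; simp [afterTrue]
      | true =>
        rcases ih with ⟨h1, h2⟩ | h
        · left
          refine ⟨?_, ?_⟩
          · rw [List.length_cons, un_succ, ← h1]
          · rw [List.takeWhile_cons]; simp only [id, if_true]; exact congrArg _ h2
        · right
          rw [List.takeWhile_cons]
          simp only [id, if_true, List.length_cons, un_succ, List.cons_append, afterTrue]
          exact congrArg _ h
  rcases key w with ⟨h1, h2⟩ | h1
  · exfalso
    unfold nOf at h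
    rw [h2] at h
    omega
  · rcases key (afterTrue w) with ⟨h3, h4⟩ | h3
    · exfalso
      have h5 : w.length = nOf w + 1 + (afterTrue w).length := by
        conv_lhs => rw [h1]
        simp only [List.length_append, un_length, List.length_cons, nOf]
        omega
      have h6 : mOf w = (afterTrue w).length := by unfold mOf; rw [h4]
      omega
    · have h5 : w = un (nOf w) ++ false :: (un (mOf w) ++ false :: restOf w) := by
        conv_lhs => rw [h1, h3]
        rfl
      have h6 : (restOf w).length = mOf w * nOf w := by
        have := congrArg List.length h5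
        simp only [List.length_append, un_length, List.length_cons] at this
        omega
      refine ⟨⟨nOf w, mOf w, fun h v => (restOf w).getD (h * nOf w + v) false⟩, ?_⟩
      unfold HG.encode
      simp only
      rw [HG.bits_eq ⟨nOf w, mOf w, fun h v => (restOf w).getD (h * nOf w + v) false⟩
        (fun h v => (restOf w).getD (h * nOf w + v) false) (fun _ _ => rfl)]
      simp only
      rw [rect_self h6]
      exact h5.symm

/-! ### The forcing relation and its closure -/

theorem forcesB_iff (G : HG) (x y x' y' : Fin G.n) :
    forcesB G.encode x y x' y' = true ↔ Forces G.M (x, y) (x', y') := by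
  unfold forcesB
  rw [mOf_encode]
  simp only [decide_eq_true_eq]
  constructor
  · rintro ⟨h, hh, l, hl, hb⟩
    have e := fun v => inc_encode G ⟨h, hh⟩ v
    have e' := fun v => inc_encode G ⟨l, hl⟩ v
    simp only at e e'
    rw [e, e, e, e, e', e', e', e'] at hb
    simp only [Bool.and_eq_true, Bool.not_eq_true'] at hb
    refine ⟨⟨h, hh⟩, ⟨l, hl⟩, ?_⟩
    simp only [HG.M, Bool.not_eq_true]
    exact ⟨hb.1.1, hb.1.2, hb.2.1, hb.2.2⟩
  · rintro ⟨h, l, hb⟩
    refine ⟨h, h.2, l, l.2, ?_⟩
    simp only [inc_encode, Bool.and_eq_true, Bool.not_eq_true']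
    simp only [HG.M, Bool.not_eq_true] at hb
    exact ⟨⟨hb.1, hb.2.1⟩, hb.2.2.1, hb.2.2.2⟩

open Classical in
/-- one round of propagation on finite sets -/
noncomputable def grow {V : Type*} [Fintype V] (r : V → V → Prop) (A : Finset V) : Finset V :=
  A ∪ Finset.univ.filter (fun q => ∃ p ∈ A, r p q)

theorem subset_grow {V : Type*} [Fintype V] (r : V → V → Prop) (A : Finset V) :
    A ⊆ grow r A := by
  classical
  intro a ha
  simp [grow, ha]

theorem grow_closed {V : Type*} [Fintype V] (r : V → V → Prop) (p : V) :
    grow r ((grow r)^[Fintype.card V] {p}) = (grow r)^[Fintype.card V] {p} := by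
  classical
  have key : ∀ k, grow r ((grow r)^[k] {p}) = (grow r)^[k] {p} ∨
      k + 1 ≤ ((grow r)^[k] {p}).card := by
    intro k
    induction k with
    | zero => right; simp
    | succ k ih =>
      rw [Function.iterate_succ_apply']
      by_cases hc : grow r ((grow r)^[k] {p}) = (grow r)^[k] {p}
      · left; rw [hc, hc]
      · right
        rcases ih with h | h
        · exact absurd h hc
        · have hss : (grow r)^[k] {p} ⊂ grow r ((grow r)^[k] {p}) :=
            Finset.ssubset_iff_subset_ne.2 ⟨subset_grow _ _, fun e => hc e.symm⟩
          have := Finset.card_lt_card hss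
          omega
  rcases key (Fintype.card V) with h | h
  · exact h
  · have := Finset.card_le_univ ((grow r)^[Fintype.card V] {p})
    omega

theorem mem_grow_iterate {V : Type*} [Fintype V] (r : V → V → Prop) (p q : V) :
    q ∈ (grow r)^[Fintype.card V] {p} ↔ Relation.ReflTransGen r p q := by
  classical
  constructor
  · have : ∀ k, ∀ q ∈ (grow r)^[k] {p}, Relation.ReflTransGen r p q := by
      intro k
      induction k with
      | zero =>
        intro q hq
        simp only [Function.iterate_zero, id_eq, Finset.mem_singleton] at hq
        subst hq; exact Relation.ReflTransGen.refl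
      | succ k ih =>
        intro q hq
        rw [Function.iterate_succ_apply'] at hq
        simp only [grow, Finset.mem_union, Finset.mem_filter, Finset.mem_univ, true_and] at hq
        rcases hq with hq | ⟨p', hp', hr⟩
        · exact ih q hq
        · exact (ih p' hp').tail hr
    exact this _ q
  · intro h
    induction h with
    | refl =>
      have : ∀ k, p ∈ (grow r)^[k] {p} := by
        intro k
        induction k with
        | zero => simp
        | succ k ih =>
          rw [Function.iterate_succ_apply']
          exact subset_grow _ _ ih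
      exact this _
    | tail _ hbc ih =>
      rw [← grow_closed]
      simp only [grow, Finset.mem_union, Finset.mem_filter, Finset.mem_univ, true_and]
      exact Or.inr ⟨_, ih, hbc⟩

theorem iterT_spec (G : HG) (x y : Fin G.n) (k : ℕ) (u v : Fin G.n) :
    (iterT G.encode x y k).getD (u * G.n + v) false = true ↔
      (u, v) ∈ (grow (Forces G.M))^[k] {(x, y)} := by
  classical
  induction k generalizing u v with
  | zero =>
    unfold iterT initT
    simp only [Function.iterate_zero, id_eq, Finset.mem_singleton]
    rw [nOf_encode, table_getD _ u.2 v.2]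
    simp only [Bool.and_eq_true, decide_eq_true_eq, Prod.mk.injEq, Fin.ext_iff]
  | succ k ih =>
    have e : iterT G.encode x y (k + 1) = stepT G.encode (iterT G.encode x y k) := by
      unfold iterT
      rw [Function.iterate_succ_apply']
    rw [e, Function.iterate_succ_apply']
    unfold stepT
    rw [nOf_encode, table_getD _ u.2 v.2]
    simp only [Bool.or_eq_true, decide_eq_true_eq, Bool.and_eq_true, grow, Finset.mem_union,
      Finset.mem_filter, Finset.mem_univ, true_and]
    rw [ih u v]
    apply or_congr Iff.rfl
    constructor
    · rintro ⟨u', hu', v', hv', h1, h2⟩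
      refine ⟨(⟨u', hu'⟩, ⟨v', hv'⟩), ?_, ?_⟩
      · exact (ih ⟨u', hu'⟩ ⟨v', hv'⟩).1 h1
      · exact (forcesB_iff G ⟨u', hu'⟩ ⟨v', hv'⟩ u v).1 h2
    · rintro ⟨⟨u', v'⟩, h1, h2⟩
      exact ⟨u', u'.2, v', v'.2, (ih u' v').2 h1, (forcesB_iff G u' v' u v).2 h2⟩

theorem abaFree_iff (G : HG) :
    G.ABAFree ↔ ∀ x y, Inc G.M x y → ¬ Eqv G.M (x, y) (y, x) := by
  constructor
  · rintro ⟨π, hπ⟩
    refine no_order (π := fun v => (π v : ℕ)) ?_ ?_
    · intro u v huv
      exact π.injective (Fin.ext huv)
    · rintro ⟨H, L, h₁, l₁, h₂, a, b, c, d, e⟩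
      simp only [HG.M, Bool.not_eq_true] at c d e
      exact hπ H L ⟨h₁, l₁, h₂, a, b, c, d, e⟩
  · intro hC
    obtain ⟨π, hinj, hπ⟩ := exists_order hC
    -- turn the injective position function into a permutation
    classical
    let f : Fin G.n → Fin G.n := fun v =>
      ⟨(Finset.univ.filter (fun u : Fin G.n => π u < π v)).card, by
        calc (Finset.univ.filter (fun u : Fin G.n => π u < π v)).card
            < (Finset.univ : Finset (Fin G.n)).card := by
              apply Finset.card_lt_card
              rw [Finset.ssubset_iff_of_subset (Finset.subset_univ _)]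
              exact ⟨v, Finset.mem_univ _, by simp⟩
          _ = G.n := by simp⟩
    have hmono : ∀ u v, π u < π v → f u < f v := by
      intro u v huv
      change (Finset.univ.filter (fun w : Fin G.n => π w < π u)).card <
        (Finset.univ.filter (fun w : Fin G.n => π w < π v)).card
      apply Finset.card_lt_card
      rw [Finset.ssubset_iff_of_subset]
      · exact ⟨u, by simpa using huv, by simp⟩
      · intro w hw
        simp only [Finset.mem_filter, Finset.mem_univ, true_and] at hw ⊢
        exact hw.trans huv
    have hinj' : Function.Injective f := by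
      intro u v huv
      by_contra hne
      have hne' : π u ≠ π v := fun e => hne (hinj e)
      rcases lt_or_gt_of_ne hne' with h | h
      · exact absurd huv (hmono u v h).ne
      · exact absurd huv.symm (hmono v u h).ne
    have hiff : ∀ u v, f u < f v → π u < π v := by
      intro u v huv
      by_contra hge
      have hne : π u ≠ π v := by
        intro e
        have := hinj e
        subst this
        exact lt_irrefl _ huv
      have : π v < π u := by omega
      exact absurd (hmono v u this) (not_lt.2 huv.le)
    refine ⟨Equiv.ofBijective f (Finite.injective_iff_bijective.1 hinj'), ?_⟩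
    rintro H L ⟨h₁, l₁, h₂, a, b, c, d, e⟩
    simp only [Equiv.ofBijective_apply] at a b
    apply hπ
    refine ⟨H, L, h₁, l₁, h₂, hiff _ _ a, hiff _ _ b, ?_⟩
    simp only [HG.M, Bool.not_eq_true]
    exact ⟨c, d, e⟩

theorem abaB_encode (G : HG) : abaB G.encode = true ↔ G.ABAFree := by
  unfold abaB
  rw [nOf_encode, mOf_encode, length_encode, abaFree_iff]
  simp only [decide_true, Bool.true_and, Bool.not_eq_true', decide_eq_false_iff_not,
    decide_eq_true_eq, Bool.and_eq_true, not_exists, not_and]
  have hcard : Fintype.card (Fin G.n × Fin G.n) = G.n * G.n := by simp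
  constructor
  · intro h x y hi he
    refine h x x.2 y y.2 ((forcesB_iff G x y x y).2 hi) ?_
    rw [iterT_spec, ← hcard, mem_grow_iterate]
    exact he
  · intro h x hx y hy h1 h2
    have h1' := (forcesB_iff G ⟨x, hx⟩ ⟨y, hy⟩ ⟨x, hx⟩ ⟨y, hy⟩).1 h1
    have h2' := (iterT_spec G ⟨x, hx⟩ ⟨y, hy⟩ (G.n * G.n) ⟨y, hy⟩ ⟨x, hx⟩).1 h2
    rw [← hcard, mem_grow_iterate] at h2'
    exact h _ _ h1' h2'

theorem abaB_iff (w : List Bool) : abaB w = true ↔ ∃ G : HG, G.ABAFree ∧ G.encode = w := by
  constructor
  · intro h
    have hlen : w.length = nOf w + mOf w + 2 + mOf w * nOf w := by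
      unfold abaB at h
      simp only [Bool.and_eq_true, decide_eq_true_eq] at h
      exact h.1
    obtain ⟨G, hG⟩ := exists_encode hlen
    refine ⟨G, ?_, hG⟩
    rw [← abaB_encode, hG]
    exact h
  · rintro ⟨G, hG, rfl⟩
    exact (abaB_encode G).2 hG

end Pool.Agent.Lib.Pa698a1
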